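import Mathlib

/-!
# The curse of dimensionality for `L_1`-type integration with nonnegative weights

Full (positive) answer of MP_2335a4_an, Q1.  The paper proof is due to helper424.
-/

open MeasureTheory Set Filter

namespace Pool.Agent.Results.MP_2335a4_an.CurseL1

/-- The unit ball of `F_{d,∞}`: the functions `f(t) = ∫_{t_1}^1 ⋯ ∫_{t_d}^1 g(x) dx` on `[0,1]^d`
with `g` measurable, `|g| ≤ 1` (`g` is the mixed derivative of `f`, up to the sign `(-1)^d`). -/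
def unitBall (d : ℕ) : Set ((Fin d → ℝ) → ℝ) :=
  {f | ∃ g : (Fin d → ℝ) → ℝ, Measurable g ∧ (∀ x, |g x| ≤ 1) ∧
    ∀ t ∈ Icc (0 : Fin d → ℝ) 1, f t = ∫ x in Set.univ.pi (fun j => Ioc (t j) 1), g x}

/-- The worst-case error of the quadrature formula `∑ a_k f(t_k)` on the unit ball. -/
noncomputable def worstCaseError {d N : ℕ} (t : Fin N → Fin d → ℝ) (a : Fin N → ℝ) : ℝ :=
  ⨆ f : unitBall d, |(∫ x in Icc (0 : Fin d → ℝ) 1, f.1 x) - ∑ k, a k * f.1 (t k)|

/-- The generalized `L_1`-discrepancy. -/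
noncomputable def L1Disc {d N : ℕ} (t : Fin N → Fin d → ℝ) (a : Fin N → ℝ) : ℝ :=
  ∫ x in Icc (0 : Fin d → ℝ) 1,
    |(∑ k, a k * Set.indicator {y : Fin d → ℝ | ∀ j, 0 ≤ y j ∧ y j < x j} (fun _ => 1) (t k)) -
      ∏ j, x j|

/-- `e⁺(N,d)`: the minimal worst-case error of the nonnegative quadrature formulas with `N` nodes
in `[0,1)^d`. -/
noncomputable def ePlus (N d : ℕ) : ℝ :=
  ⨅ A : {A : (Fin N → Fin d → ℝ) × (Fin N → ℝ) //
    (∀ k j, A.1 k j ∈ Ico (0 : ℝ) 1) ∧ ∀ k, 0 ≤ A.2 k}, worstCaseError A.1.1 A.1.2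

/-- `N⁺(ε,d)`. -/
noncomputable def NPlus (ε : ℝ) (d : ℕ) : ℕ∞ :=
  ⨅ (N : ℕ) (_ : ePlus N d ≤ ε * (1 / 2) ^ d), (N : ℕ∞)

/-! ## One-dimensional integrals -/

/-- The indicator of `t < x`. -/
noncomputable def i1 (t x : ℝ) : ℝ := if t < x then 1 else 0

/-- The function of the fifth bad event. -/
noncomputable def f5 (t x : ℝ) : ℝ := if t < x then ((1 - t) / (1 - x)) ^ (1 / 8 : ℝ) else 0

lemma int_x : ∫ x in Ioo (0 : ℝ) 1, x = 1 / 2 := by
  rw [← integral_Ioc_eq_integral_Ioo, ← intervalIntegral.integral_of_le zero_le_one]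
  simp

lemma int_pow : ∫ x in Ioo (0 : ℝ) 1, x ^ (9 / 8 : ℝ) = 8 / 17 := by
  rw [← integral_Ioc_eq_integral_Ioo, ← intervalIntegral.integral_of_le zero_le_one,
    integral_rpow (Or.inl (by norm_num)), Real.one_rpow, Real.zero_rpow (by norm_num)]
  norm_num

lemma int_pow' : ∫ x in Ioo (0 : ℝ) 1, x * (1 - x) ^ (1 / 8 : ℝ) = 64 / 153 := by
  rw [← integral_Ioc_eq_integral_Ioo, ← intervalIntegral.integral_of_le zero_le_one]
  have h := intervalIntegral.integral_comp_sub_left (a := 0) (b := 1)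
    (fun y : ℝ => (1 - y) * y ^ (1 / 8 : ℝ)) 1
  simp only [sub_sub_cancel, sub_self, sub_zero] at h
  rw [h]
  have h2 : ∫ y in (0 : ℝ)..1, (1 - y) * y ^ (1 / 8 : ℝ) =
      ∫ y in (0 : ℝ)..1, (y ^ (1 / 8 : ℝ) - y ^ (9 / 8 : ℝ)) := by
    refine intervalIntegral.integral_congr_ae (Eventually.of_forall fun y hy => ?_)
    rw [Set.uIoc_of_le zero_le_one] at hy
    have : y ^ (9 / 8 : ℝ) = y * y ^ (1 / 8 : ℝ) := by
      rw [show (9 / 8 : ℝ) = 1 + 1 / 8 by norm_num, Real.rpow_add hy.1, Real.rpow_one]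
    rw [this]; ring
  rw [h2, intervalIntegral.integral_sub
    (intervalIntegral.intervalIntegrable_rpow (Or.inl (by norm_num)))
    (intervalIntegral.intervalIntegrable_rpow (Or.inl (by norm_num))),
    integral_rpow (Or.inl (by norm_num)), integral_rpow (Or.inl (by norm_num)),
    Real.one_rpow, Real.zero_rpow (by norm_num), Real.one_rpow, Real.zero_rpow (by norm_num)]
  norm_num

lemma int_ite {t : ℝ} (ht : t ∈ Ico (0 : ℝ) 1) (f : ℝ → ℝ) :
    ∫ x in Ioo (0 : ℝ) 1, (if t < x then f x else 0) = ∫ x in t..1, f x := by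
  have h1 : (fun x : ℝ => if t < x then f x else 0) = Set.indicator (Ioi t) f := by
    funext x
    simp [Set.indicator_apply]
  rw [h1, setIntegral_indicator measurableSet_Ioi]
  have h2 : Ioo (0 : ℝ) 1 ∩ Ioi t = Ioo t 1 := by
    ext x
    simp only [mem_inter_iff, mem_Ioo, mem_Ioi]
    constructor
    · rintro ⟨⟨_, h⟩, h'⟩; exact ⟨h', h⟩
    · rintro ⟨h', h⟩; exact ⟨⟨lt_of_le_of_lt ht.1 h', h⟩, h'⟩
  rw [h2, ← integral_Ioc_eq_integral_Ioo, ← intervalIntegral.integral_of_le ht.2.le]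

lemma int_i1 {t : ℝ} (ht : t ∈ Ico (0 : ℝ) 1) : ∫ x in Ioo (0 : ℝ) 1, i1 t x = 1 - t := by
  unfold i1
  rw [int_ite ht]
  simp

lemma int_f5 {t : ℝ} (ht : t ∈ Ico (0 : ℝ) 1) :
    ∫ x in Ioo (0 : ℝ) 1, f5 t x = (1 - t) * (8 / 7) := by
  unfold f5
  rw [int_ite ht]
  have h := intervalIntegral.integral_comp_sub_left (a := t) (b := 1)
    (fun y : ℝ => ((1 - t) / y) ^ (1 / 8 : ℝ)) 1
  rw [h, sub_self]
  have ht1 : 0 < 1 - t := by linarith [ht.2]
  have h2 : ∫ y in (0 : ℝ)..(1 - t), ((1 - t) / y) ^ (1 / 8 : ℝ) =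
      ∫ y in (0 : ℝ)..(1 - t), (1 - t) ^ (1 / 8 : ℝ) * y ^ (-(1 / 8) : ℝ) := by
    refine intervalIntegral.integral_congr_ae (Eventually.of_forall fun y hy => ?_)
    rw [Set.uIoc_of_le ht1.le] at hy
    rw [Real.div_rpow ht1.le hy.1.le, Real.rpow_neg hy.1.le, div_eq_mul_inv]
  rw [h2, intervalIntegral.integral_const_mul, integral_rpow (Or.inl (by norm_num)),
    Real.zero_rpow (by norm_num)]
  have h3 : (1 - t) ^ (1 / 8 : ℝ) * (1 - t) ^ (-(1 / 8) + 1 : ℝ) = 1 - t := by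
    rw [← Real.rpow_add ht1]
    norm_num
  calc (1 - t) ^ (1 / 8 : ℝ) * (((1 - t) ^ (-(1 / 8) + 1 : ℝ) - 0) / (-(1 / 8) + 1))
      = ((1 - t) ^ (1 / 8 : ℝ) * (1 - t) ^ (-(1 / 8) + 1 : ℝ)) * (8 / 7) := by norm_num; ring
    _ = _ := by rw [h3]

/-! ## The cube -/

/-- Lebesgue measure on the open cube. -/
noncomputable def cub (d : ℕ) : Measure (Fin d → ℝ) :=
  Measure.pi (fun _ : Fin d => (volume : Measure ℝ).restrict (Ioo 0 1))

lemma cub_eq (d : ℕ) : cub d = (volume : Measure (Fin d → ℝ)).restrict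
    (Set.univ.pi fun _ : Fin d => Ioo (0 : ℝ) 1) := by
  unfold cub
  rw [← Measure.restrict_pi_pi, volume_pi]

lemma vol_eq (d : ℕ) : (volume : Measure (Fin d → ℝ)).restrict (Icc 0 1) = cub d := by
  rw [cub_eq]
  exact (Measure.restrict_congr_set (Measure.univ_pi_Ioo_ae_eq_Icc
    (μ := fun _ : Fin d => (volume : Measure ℝ)) (f := 0) (g := 1))).symm

lemma ae_mem (d : ℕ) : ∀ᵐ x ∂(cub d), ∀ j, x j ∈ Ioo (0 : ℝ) 1 := by
  rw [cub_eq]
  refine (ae_restrict_mem (MeasurableSet.univ_pi fun _ => measurableSet_Ioo)).mono ?_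
  intro x hx j
  exact hx j (mem_univ j)

instance fin_cub (d : ℕ) : IsFiniteMeasure (cub d) := by
  unfold cub
  infer_instance

lemma int_prod_fun {d : ℕ} (f : Fin d → ℝ → ℝ) :
    ∫ x, ∏ j, f j (x j) ∂(cub d) = ∏ j, ∫ y in Ioo (0 : ℝ) 1, f j y := by
  unfold cub
  exact integral_fintype_prod_eq_prod f

lemma integrable_of_ne {d : ℕ} {f : (Fin d → ℝ) → ℝ} {c : ℝ} (h : ∫ x, f x ∂(cub d) = c)
    (hc : c ≠ 0) : Integrable f (cub d) := by
  by_contra hn
  exact hc (h.symm.trans (integral_undef hn))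

lemma I_P (d : ℕ) : ∫ x, ∏ j, x j ∂(cub d) = (1 / 2) ^ d := by
  rw [int_prod_fun (fun _ y => y)]
  simp [int_x]

lemma I_3 (d : ℕ) : ∫ x, ∏ j, (x j) ^ (9 / 8 : ℝ) ∂(cub d) = (8 / 17) ^ d := by
  rw [int_prod_fun (fun _ y => y ^ (9 / 8 : ℝ))]
  simp only [int_pow, Finset.prod_const, Finset.card_univ, Fintype.card_fin]

lemma I_4 (d : ℕ) : ∫ x, ∏ j, (x j * (1 - x j) ^ (1 / 8 : ℝ)) ∂(cub d) = (64 / 153) ^ d := by
  rw [int_prod_fun (fun _ y => y * (1 - y) ^ (1 / 8 : ℝ))]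
  simp only [int_pow', Finset.prod_const, Finset.card_univ, Fintype.card_fin]

lemma I_i {d : ℕ} {t : Fin d → ℝ} (ht : ∀ j, t j ∈ Ico (0 : ℝ) 1) :
    ∫ x, ∏ j, i1 (t j) (x j) ∂(cub d) = ∏ j, (1 - t j) := by
  rw [int_prod_fun (fun j y => i1 (t j) y)]
  exact Finset.prod_congr rfl fun j _ => int_i1 (ht j)

lemma I_5 {d : ℕ} {t : Fin d → ℝ} (ht : ∀ j, t j ∈ Ico (0 : ℝ) 1) :
    ∫ x, ∏ j, f5 (t j) (x j) ∂(cub d) = (∏ j, (1 - t j)) * (8 / 7) ^ d := by
  rw [int_prod_fun (fun j y => f5 (t j) y)]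
  rw [Finset.prod_congr rfl fun j _ => int_f5 (ht j), Finset.prod_mul_distrib,
    Finset.prod_const, Finset.card_univ, Fintype.card_fin]

lemma prod_pos_of {d : ℕ} {t : Fin d → ℝ} (ht : ∀ j, t j ∈ Ico (0 : ℝ) 1) :
    0 < ∏ j, (1 - t j) :=
  Finset.prod_pos fun j _ => by linarith [(ht j).2]

lemma i1_nonneg (t x : ℝ) : 0 ≤ i1 t x := by unfold i1; split_ifs <;> norm_num

lemma i1_le (t x : ℝ) : i1 t x ≤ 1 := by unfold i1; split_ifs <;> norm_num

lemma f5_nonneg {t x : ℝ} (ht : t ∈ Ico (0 : ℝ) 1) (hx : x ∈ Ioo (0 : ℝ) 1) : 0 ≤ f5 t x := by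
  unfold f5
  split_ifs
  · exact Real.rpow_nonneg (div_nonneg (by linarith [ht.2]) (by linarith [hx.2])) _
  · exact le_rfl

/-! ## The pointwise inequality -/

/-- The product of all coordinates. -/
noncomputable def P {d : ℕ} (x : Fin d → ℝ) : ℝ := ∏ j, x j

/-- The indicator of `t < x`. -/
noncomputable def ind {d : ℕ} (t x : Fin d → ℝ) : ℝ := ∏ j, i1 (t j) (x j)

/-- The weighted number of nodes in the box `[0,x)`. -/
noncomputable def H {d N : ℕ} (t : Fin N → Fin d → ℝ) (a : Fin N → ℝ) (x : Fin d → ℝ) : ℝ :=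
  ∑ k, a k * ind (t k) x

lemma ind_nonneg {d : ℕ} (t x : Fin d → ℝ) : 0 ≤ ind t x :=
  Finset.prod_nonneg fun _ _ => i1_nonneg _ _

lemma ind_one {d : ℕ} {t x : Fin d → ℝ} (h : ∀ j, t j < x j) : ind t x = 1 := by
  unfold ind i1
  exact Finset.prod_eq_one fun j _ => if_pos (h j)

lemma ind_zero {d : ℕ} {t x : Fin d → ℝ} (h : ¬ ∀ j, t j < x j) : ind t x = 0 := by
  push Not at h
  obtain ⟨j, hj⟩ := h
  unfold ind i1
  exact Finset.prod_eq_zero (Finset.mem_univ j) (if_neg (not_lt.2 hj))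

/-- The good pairs do not exist. -/
lemma no_good {d : ℕ} {t x : Fin d → ℝ} (ht : ∀ j, t j ∈ Ico (0 : ℝ) 1)
    (hx : ∀ j, x j ∈ Ioo (0 : ℝ) 1) (htx : ∀ j, t j < x j) {al h R K : ℝ}
    (hah : al ≤ h) (hR : 0 < R) (hK : 0 < K)
    (hC : R * K * (2 * (201 / 200 * 16 / 17) ^ 8 * (201 / 200 * 128 / 153) ^ 8) ^ d <
      ((175 / 201 : ℝ) ^ 8) ^ d)
    (h1 : h ≤ R * P x) (h2 : 1 / K ≤ al * 2 ^ d * ∏ j, (1 - t j))
    (h3 : ∏ j, (x j) ^ (1 / 8 : ℝ) ≤ (201 / 200 * 16 / 17) ^ d)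
    (h4 : ∏ j, (1 - x j) ^ (1 / 8 : ℝ) ≤ (201 / 200 * 128 / 153) ^ d)
    (h5 : (175 / 201) ^ d * ∏ j, f5 (t j) (x j) ≤ 1) : False := by
  have hx0 : ∀ j, 0 < x j := fun j => (hx j).1
  have hx1 : ∀ j, 0 < 1 - x j := fun j => by linarith [(hx j).2]
  have ht1 : ∀ j, 0 < 1 - t j := fun j => by linarith [(ht j).2]
  have e3 : (∏ j, (x j) ^ (1 / 8 : ℝ)) ^ 8 = P x := by
    unfold P
    rw [← Finset.prod_pow]
    refine Finset.prod_congr rfl fun j _ => ?_
    rw [← Real.rpow_natCast, ← Real.rpow_mul (hx0 j).le]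
    norm_num
  have e5 : ∏ j, f5 (t j) (x j) = (∏ j, (1 - t j) ^ (1 / 8 : ℝ)) / ∏ j, (1 - x j) ^ (1 / 8 : ℝ) := by
    rw [← Finset.prod_div_distrib]
    refine Finset.prod_congr rfl fun j _ => ?_
    unfold f5
    rw [if_pos (htx j), Real.div_rpow (ht1 j).le (hx1 j).le]
  have e6 : (∏ j, (1 - t j) ^ (1 / 8 : ℝ)) ^ 8 = ∏ j, (1 - t j) := by
    rw [← Finset.prod_pow]
    refine Finset.prod_congr rfl fun j _ => ?_
    rw [← Real.rpow_natCast, ← Real.rpow_mul (ht1 j).le]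
    norm_num
  set X := ∏ j, (x j) ^ (1 / 8 : ℝ) with hX
  set Y := ∏ j, (1 - x j) ^ (1 / 8 : ℝ) with hY
  set T := ∏ j, (1 - t j) ^ (1 / 8 : ℝ) with hT
  have hX0 : 0 < X := Finset.prod_pos fun j _ => Real.rpow_pos_of_pos (hx0 j) _
  have hY0 : 0 < Y := Finset.prod_pos fun j _ => Real.rpow_pos_of_pos (hx1 j) _
  have hT0 : 0 < T := Finset.prod_pos fun j _ => Real.rpow_pos_of_pos (ht1 j) _
  have hG : (0 : ℝ) < (175 / 201) ^ d := by positivity
  -- `G^d T ≤ Y ≤ B^d`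
  have h6 : (175 / 201) ^ d * T ≤ (201 / 200 * 128 / 153) ^ d := by
    rw [e5, mul_div_assoc', div_le_one hY0] at h5
    exact h5.trans h4
  have h7 : ((175 / 201 : ℝ) ^ d) ^ 8 * T ^ 8 ≤ ((201 / 200 * 128 / 153 : ℝ) ^ d) ^ 8 := by
    rw [← mul_pow]
    exact pow_le_pow_left₀ (by positivity) h6 8
  have h8 : X ^ 8 ≤ ((201 / 200 * 16 / 17 : ℝ) ^ d) ^ 8 := pow_le_pow_left₀ hX0.le h3 8
  rw [← e6] at h2
  rw [← e3] at h1
  have h9 : 1 / K ≤ R * X ^ 8 * 2 ^ d * T ^ 8 := by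
    refine h2.trans ?_
    have : al ≤ R * X ^ 8 := hah.trans h1
    gcongr
  have h10 : 1 / K * ((175 / 201 : ℝ) ^ d) ^ 8 ≤
      R * ((201 / 200 * 16 / 17 : ℝ) ^ d) ^ 8 * 2 ^ d * ((201 / 200 * 128 / 153 : ℝ) ^ d) ^ 8 := by
    calc 1 / K * ((175 / 201 : ℝ) ^ d) ^ 8
        ≤ (R * X ^ 8 * 2 ^ d * T ^ 8) * ((175 / 201 : ℝ) ^ d) ^ 8 := by gcongr
      _ = R * X ^ 8 * 2 ^ d * (((175 / 201 : ℝ) ^ d) ^ 8 * T ^ 8) := by ring
      _ ≤ R * ((201 / 200 * 16 / 17 : ℝ) ^ d) ^ 8 * 2 ^ d *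
          ((201 / 200 * 128 / 153 : ℝ) ^ d) ^ 8 := by gcongr
  have h11 : ((175 / 201 : ℝ) ^ 8) ^ d ≤
      R * K * (2 * (201 / 200 * 16 / 17) ^ 8 * (201 / 200 * 128 / 153) ^ 8) ^ d := by
    rw [one_div, inv_mul_le_iff₀ (by positivity)] at h10
    calc ((175 / 201 : ℝ) ^ 8) ^ d = ((175 / 201 : ℝ) ^ d) ^ 8 := by rw [← pow_mul, ← pow_mul, mul_comm]
      _ ≤ _ := h10
      _ = _ := by
        rw [mul_pow, mul_pow, ← pow_mul, ← pow_mul, ← pow_mul, ← pow_mul, mul_comm 8 d]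
        ring
  linarith

lemma pointwise {d N : ℕ} {t : Fin N → Fin d → ℝ} {a : Fin N → ℝ}
    (ht : ∀ k j, t k j ∈ Ico (0 : ℝ) 1) (ha : ∀ k, 0 ≤ a k) {R K : ℝ} (hR : 1 < R) (hK : 0 < K)
    (hC : R * K * (2 * (201 / 200 * 16 / 17) ^ 8 * (201 / 200 * 128 / 153) ^ 8) ^ d <
      ((175 / 201 : ℝ) ^ 8) ^ d)
    {x : Fin d → ℝ} (hx : ∀ j, x j ∈ Ioo (0 : ℝ) 1) :
    P x ≤ (1 + 1 / (R - 1)) * |H t a x - P x| +
      (∑ k, (if a k * 2 ^ d * ∏ j, (1 - t k j) < 1 / K then a k else 0) * ind (t k) x) +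
      (∏ j, (x j) ^ (9 / 8 : ℝ)) / (201 / 200 * 16 / 17) ^ d +
      (∏ j, (x j * (1 - x j) ^ (1 / 8 : ℝ))) / (201 / 200 * 128 / 153) ^ d +
      (175 / 201) ^ d * ∑ k, a k * ∏ j, f5 (t k j) (x j) := by
  have hx0 : ∀ j, 0 < x j := fun j => (hx j).1
  have hx1 : ∀ j, 0 < 1 - x j := fun j => by linarith [(hx j).2]
  have hP : 0 < P x := Finset.prod_pos fun j _ => hx0 j
  have hR1 : 0 < R - 1 := by linarith
  have e3 : ∏ j, (x j) ^ (9 / 8 : ℝ) = P x * ∏ j, (x j) ^ (1 / 8 : ℝ) := by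
    unfold P
    rw [← Finset.prod_mul_distrib]
    refine Finset.prod_congr rfl fun j _ => ?_
    rw [show (9 / 8 : ℝ) = 1 + 1 / 8 by norm_num, Real.rpow_add (hx0 j), Real.rpow_one]
  have e4 : ∏ j, (x j * (1 - x j) ^ (1 / 8 : ℝ)) = P x * ∏ j, (1 - x j) ^ (1 / 8 : ℝ) := by
    unfold P
    rw [← Finset.prod_mul_distrib]
  have hA : (0 : ℝ) < (201 / 200 * 16 / 17) ^ d := by positivity
  have hB : (0 : ℝ) < (201 / 200 * 128 / 153) ^ d := by positivity
  set F3 : ℝ := (∏ j, (x j) ^ (1 / 8 : ℝ)) / (201 / 200 * 16 / 17) ^ d with hF3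
  set F4 : ℝ := (∏ j, (1 - x j) ^ (1 / 8 : ℝ)) / (201 / 200 * 128 / 153) ^ d with hF4
  have hF30 : 0 ≤ F3 := div_nonneg (Finset.prod_nonneg fun j _ => Real.rpow_nonneg (hx0 j).le _) hA.le
  have hF40 : 0 ≤ F4 := div_nonneg (Finset.prod_nonneg fun j _ => Real.rpow_nonneg (hx1 j).le _) hB.le
  have hterm : ∀ k, 0 ≤ a k * ind (t k) x := fun k => mul_nonneg (ha k) (ind_nonneg _ _)
  have hH0 : 0 ≤ H t a x := Finset.sum_nonneg fun k _ => hterm k
  have h50 : ∀ k, 0 ≤ ∏ j, f5 (t k j) (x j) := fun k =>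
    Finset.prod_nonneg fun j _ => f5_nonneg (ht k j) (hx j)
  have hG : ∀ k, 0 ≤ (175 / 201 : ℝ) ^ d * (a k * ∏ j, f5 (t k j) (x j)) := fun k =>
    mul_nonneg (by positivity) (mul_nonneg (ha k) (h50 k))
  have hL : ∀ k, 0 ≤ (if a k * 2 ^ d * ∏ j, (1 - t k j) < 1 / K then a k else 0) *
      ind (t k) x := fun k =>
    mul_nonneg (by split_ifs <;> [exact ha k; exact le_rfl]) (ind_nonneg _ _)
  have e3' : (∏ j, (x j) ^ (9 / 8 : ℝ)) / (201 / 200 * 16 / 17) ^ d = P x * F3 := by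
    rw [e3, hF3, mul_div_assoc]
  have e4' : (∏ j, (x j * (1 - x j) ^ (1 / 8 : ℝ))) / (201 / 200 * 128 / 153) ^ d = P x * F4 := by
    rw [e4, hF4, mul_div_assoc]
  rw [e3', e4']
  have hD0 := abs_nonneg (H t a x - P x)
  have hLs := Finset.sum_nonneg fun k (_ : k ∈ Finset.univ) => hL k
  have hGs := Finset.sum_nonneg fun k (_ : k ∈ Finset.univ) => hG k
  rw [← Finset.mul_sum] at hGs
  have hP3 : 0 ≤ P x * F3 := mul_nonneg hP.le hF30
  have hP4 : 0 ≤ P x * F4 := mul_nonneg hP.le hF40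
  have hexp : (1 + 1 / (R - 1)) * |H t a x - P x| =
      |H t a x - P x| + |H t a x - P x| / (R - 1) := by ring
  have hDR : 0 ≤ |H t a x - P x| / (R - 1) := div_nonneg hD0 hR1.le
  rw [hexp]
  by_cases c1 : R * P x < H t a x
  · have h1 : P x ≤ |H t a x - P x| / (R - 1) := by
      rw [le_div_iff₀ hR1]
      have := le_abs_self (H t a x - P x)
      nlinarith
    linarith
  have hD2 : P x ≤ H t a x + |H t a x - P x| := by linarith [neg_abs_le (H t a x - P x)]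
  rcases hH0.eq_or_lt with hz | hHp
  · linarith
  -- the weight
  set th : ℝ := min (H t a x) (P x) / H t a x with hth
  have hmin0 : 0 < min (H t a x) (P x) := lt_min hHp hP
  have hth0 : 0 ≤ th := div_nonneg hmin0.le hH0
  have hth1 : th ≤ 1 := (div_le_one hHp).2 (min_le_left _ _)
  have hthH : th * H t a x = min (H t a x) (P x) := div_mul_cancel₀ _ hHp.ne'
  have hone : ∀ k, th * (a k * ind (t k) x) ≤
      (if a k * 2 ^ d * ∏ j, (1 - t k j) < 1 / K then a k else 0) * ind (t k) x +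
      F3 * (th * (a k * ind (t k) x)) + F4 * (th * (a k * ind (t k) x)) +
      (175 / 201) ^ d * (a k * ∏ j, f5 (t k j) (x j)) := by
    intro k
    have hG := hG k
    have hL := hL k
    have hT := mul_nonneg hth0 (hterm k)
    have hT1 : th * (a k * ind (t k) x) ≤ a k * ind (t k) x :=
      mul_le_of_le_one_left (hterm k) hth1
    have h3T := mul_nonneg hF30 hT
    have h4T := mul_nonneg hF40 hT
    by_cases htx : ∀ j, t k j < x j
    swap
    · have h0 : th * (a k * ind (t k) x) = 0 := by rw [ind_zero htx, mul_zero, mul_zero]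
      linarith
    have hi : ind (t k) x = 1 := ind_one htx
    by_cases c2 : a k * 2 ^ d * ∏ j, (1 - t k j) < 1 / K
    · rw [if_pos c2]; linarith
    by_cases c3 : 1 ≤ F3
    · have := mul_le_mul_of_nonneg_right c3 hT
      linarith
    by_cases c4 : 1 ≤ F4
    · have := mul_le_mul_of_nonneg_right c4 hT
      linarith
    by_cases c5 : 1 ≤ (175 / 201 : ℝ) ^ d * ∏ j, f5 (t k j) (x j)
    · have h6 : a k * ind (t k) x ≤ (175 / 201 : ℝ) ^ d * (a k * ∏ j, f5 (t k j) (x j)) := by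
        rw [hi, mul_one]
        nlinarith [ha k, mul_le_mul_of_nonneg_left c5 (ha k)]
      linarith
    exfalso
    refine no_good (h := H t a x) (K := K) (al := a k) (ht k) hx htx ?_ (by linarith) hK hC
      (not_lt.1 c1) (not_lt.1 c2) ?_ ?_ (not_le.1 c5).le
    · have : a k * ind (t k) x ≤ H t a x :=
        Finset.single_le_sum (f := fun k => a k * ind (t k) x) (fun k _ => hterm k)
          (Finset.mem_univ k)
      rwa [hi, mul_one] at this
    · have := (not_le.1 c3).le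
      rwa [hF3, div_le_one hA] at this
    · have := (not_le.1 c4).le
      rwa [hF4, div_le_one hB] at this
  have hsum := Finset.sum_le_sum fun k (_ : k ∈ Finset.univ) => hone k
  simp only [Finset.sum_add_distrib, ← Finset.mul_sum] at hsum
  change th * H t a x ≤ _ + F3 * (th * H t a x) + F4 * (th * H t a x) + _ at hsum
  rw [hthH] at hsum
  have hm : min (H t a x) (P x) ≤ P x := min_le_right _ _
  have h3 : F3 * min (H t a x) (P x) ≤ P x * F3 := by
    rw [mul_comm]; exact mul_le_mul_of_nonneg_right hm hF30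
  have h4 : F4 * min (H t a x) (P x) ≤ P x * F4 := by
    rw [mul_comm]; exact mul_le_mul_of_nonneg_right hm hF40
  have h5 : P x ≤ min (H t a x) (P x) + |H t a x - P x| := by
    rcases min_choice (H t a x) (P x) with h | h <;> rw [h] <;> linarith
  linarith

/-! ## Integration -/

lemma meas_ind {d : ℕ} (t : Fin d → ℝ) : Measurable (ind t) := by
  unfold ind i1
  refine Finset.measurable_prod _ fun j _ => ?_
  exact Measurable.ite (measurableSet_lt measurable_const (measurable_pi_apply j))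
    measurable_const measurable_const

lemma int_ind {d : ℕ} (t : Fin d → ℝ) : Integrable (ind t) (cub d) := by
  refine Integrable.of_bound (meas_ind t).aestronglyMeasurable 1 (Eventually.of_forall fun x => ?_)
  rw [Real.norm_eq_abs, abs_of_nonneg (ind_nonneg _ _)]
  exact Finset.prod_le_one (fun _ _ => i1_nonneg _ _) fun _ _ => i1_le _ _

lemma int_H {d N : ℕ} (t : Fin N → Fin d → ℝ) (a : Fin N → ℝ) : Integrable (H t a) (cub d) := by
  unfold H
  exact integrable_finsetSum _ fun k _ => (int_ind (t k)).const_mul _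

lemma int_P (d : ℕ) : Integrable (P (d := d)) (cub d) :=
  integrable_of_ne (I_P d) (by positivity)

/-- The main estimate. -/
lemma main_est {d N : ℕ} {t : Fin N → Fin d → ℝ} {a : Fin N → ℝ}
    (ht : ∀ k j, t k j ∈ Ico (0 : ℝ) 1) (ha : ∀ k, 0 ≤ a k) {R K ε : ℝ} (hR : 1 < R) (hK : 0 < K)
    (hε : ε ≤ 1)
    (hC : R * K * (2 * (201 / 200 * 16 / 17) ^ 8 * (201 / 200 * 128 / 153) ^ 8) ^ d <
      ((175 / 201 : ℝ) ^ 8) ^ d)
    (hD : ∫ x, |H t a x - P x| ∂(cub d) ≤ ε * (1 / 2) ^ d) :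
    1 ≤ (1 + 1 / (R - 1)) * ε + N / K + 4 * (200 / 201 : ℝ) ^ d := by
  have hR1 : 0 < R - 1 := by linarith
  have iD : Integrable (fun x => |H t a x - P x|) (cub d) := ((int_H t a).sub (int_P d)).abs
  have iL : Integrable (fun x => ∑ k, (if a k * 2 ^ d * ∏ j, (1 - t k j) < 1 / K then a k
      else 0) * ind (t k) x) (cub d) := integrable_finsetSum _ fun k _ => (int_ind (t k)).const_mul _
  have i3 : Integrable (fun x : Fin d → ℝ => (∏ j, (x j) ^ (9 / 8 : ℝ)) / (201 / 200 * 16 / 17) ^ d)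
      (cub d) := (integrable_of_ne (I_3 d) (by positivity)).div_const _
  have i4 : Integrable (fun x : Fin d → ℝ => (∏ j, (x j * (1 - x j) ^ (1 / 8 : ℝ))) /
      (201 / 200 * 128 / 153) ^ d) (cub d) := (integrable_of_ne (I_4 d) (by positivity)).div_const _
  have i5k : ∀ k, Integrable (fun x : Fin d → ℝ => a k * ∏ j, f5 (t k j) (x j)) (cub d) := fun k =>
    (integrable_of_ne (I_5 (ht k)) (mul_pos (prod_pos_of (ht k)) (by positivity)).ne').const_mul _
  have i5 : Integrable (fun x : Fin d → ℝ => (175 / 201) ^ d * ∑ k, a k * ∏ j, f5 (t k j) (x j))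
      (cub d) := (integrable_finsetSum _ fun k _ => i5k k).const_mul _
  have hpt := (ae_mem d).mono fun x hx => pointwise ht ha hR hK hC hx
  have i1' : Integrable (fun x => (1 + 1 / (R - 1)) * |H t a x - P x|) (cub d) := iD.const_mul _
  have i2' : Integrable (fun x => (1 + 1 / (R - 1)) * |H t a x - P x| +
      (∑ k, (if a k * 2 ^ d * ∏ j, (1 - t k j) < 1 / K then a k else 0) * ind (t k) x))
      (cub d) := i1'.add iL
  have i3' : Integrable (fun x => (1 + 1 / (R - 1)) * |H t a x - P x| +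
      (∑ k, (if a k * 2 ^ d * ∏ j, (1 - t k j) < 1 / K then a k else 0) * ind (t k) x) +
      (∏ j, (x j) ^ (9 / 8 : ℝ)) / (201 / 200 * 16 / 17) ^ d) (cub d) := i2'.add i3
  have i4' : Integrable (fun x => (1 + 1 / (R - 1)) * |H t a x - P x| +
      (∑ k, (if a k * 2 ^ d * ∏ j, (1 - t k j) < 1 / K then a k else 0) * ind (t k) x) +
      (∏ j, (x j) ^ (9 / 8 : ℝ)) / (201 / 200 * 16 / 17) ^ d +
      (∏ j, (x j * (1 - x j) ^ (1 / 8 : ℝ))) / (201 / 200 * 128 / 153) ^ d) (cub d) := i3'.add i4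
  have i5' : Integrable (fun x => (1 + 1 / (R - 1)) * |H t a x - P x| +
      (∑ k, (if a k * 2 ^ d * ∏ j, (1 - t k j) < 1 / K then a k else 0) * ind (t k) x) +
      (∏ j, (x j) ^ (9 / 8 : ℝ)) / (201 / 200 * 16 / 17) ^ d +
      (∏ j, (x j * (1 - x j) ^ (1 / 8 : ℝ))) / (201 / 200 * 128 / 153) ^ d +
      (175 / 201) ^ d * ∑ k, a k * ∏ j, f5 (t k j) (x j)) (cub d) := i4'.add i5
  have h0 := integral_mono_ae (int_P d) i5' hpt
  have eq1 : ∫ x, P x ∂(cub d) = (1 / 2) ^ d := I_P d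
  have hp : (0 : ℝ) < (1 / 2) ^ d := by positivity
  have eI : ∀ k, ∫ x, ind (t k) x ∂(cub d) = ∏ j, (1 - t k j) := fun k => I_i (ht k)
  have hHi : ∫ x, H t a x ∂(cub d) = ∑ k, a k * ∏ j, (1 - t k j) := by
    unfold H
    rw [integral_finsetSum _ fun k _ => (int_ind (t k)).const_mul _]
    exact Finset.sum_congr rfl fun k _ => by rw [integral_const_mul, eI]
  have hHle : ∑ k, a k * ∏ j, (1 - t k j) ≤ 2 * (1 / 2) ^ d := by
    rw [← hHi]
    have h1 : ∫ x, H t a x ∂(cub d) ≤ ∫ x, (P x + |H t a x - P x|) ∂(cub d) := by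
      refine integral_mono (int_H t a) ((int_P d).add iD) fun x => ?_
      simp only
      linarith [le_abs_self (H t a x - P x)]
    rw [integral_add (int_P d) iD, eq1] at h1
    nlinarith
  have eL : ∫ x, (∑ k, (if a k * 2 ^ d * ∏ j, (1 - t k j) < 1 / K then a k
      else 0) * ind (t k) x) ∂(cub d) ≤ N / K * (1 / 2) ^ d := by
    rw [integral_finsetSum _ fun k _ => (int_ind (t k)).const_mul _]
    calc ∑ k, ∫ x, (if a k * 2 ^ d * ∏ j, (1 - t k j) < 1 / K then a k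
      else 0) * ind (t k) x ∂(cub d) ≤ ∑ k : Fin N, 1 / K * (1 / 2) ^ d := by
          refine Finset.sum_le_sum fun k _ => ?_
          rw [integral_const_mul, eI]
          split_ifs with c
          · have h2 : (0 : ℝ) < 2 ^ d := by positivity
            rw [one_div_pow, mul_one_div, le_div_iff₀ h2]
            linarith
          · rw [zero_mul]; positivity
      _ = N / K * (1 / 2) ^ d := by
          rw [Finset.sum_const, Finset.card_univ, Fintype.card_fin, nsmul_eq_mul]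
          ring
  have e3 : ∫ x, (∏ j, (x j) ^ (9 / 8 : ℝ)) / (201 / 200 * 16 / 17) ^ d ∂(cub d) =
      (200 / 201) ^ d * (1 / 2) ^ d := by
    rw [integral_div, I_3, ← div_pow, ← mul_pow]
    norm_num
  have e4 : ∫ x, (∏ j, (x j * (1 - x j) ^ (1 / 8 : ℝ))) /
      (201 / 200 * 128 / 153) ^ d ∂(cub d) = (200 / 201) ^ d * (1 / 2) ^ d := by
    rw [integral_div, I_4, ← div_pow, ← mul_pow]
    norm_num
  have e5 : ∫ x, (175 / 201) ^ d * ∑ k, a k * ∏ j, f5 (t k j) (x j) ∂(cub d) ≤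
      (200 / 201) ^ d * (2 * (1 / 2) ^ d) := by
    rw [integral_const_mul, integral_finsetSum _ fun k _ => i5k k]
    have e6 : ∀ k, ∫ x, a k * ∏ j, f5 (t k j) (x j) ∂(cub d) =
        (a k * ∏ j, (1 - t k j)) * (8 / 7) ^ d := fun k => by
      rw [integral_const_mul, I_5 (ht k)]; ring
    rw [Finset.sum_congr rfl fun k _ => e6 k, ← Finset.sum_mul]
    have e7 : (175 / 201 : ℝ) ^ d * (8 / 7) ^ d = (200 / 201) ^ d := by
      rw [← mul_pow]; norm_num
    calc (175 / 201 : ℝ) ^ d * ((∑ k, a k * ∏ j, (1 - t k j)) * (8 / 7) ^ d)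
        = ((175 / 201 : ℝ) ^ d * (8 / 7) ^ d) * ∑ k, a k * ∏ j, (1 - t k j) := by ring
      _ ≤ _ := by rw [e7]; gcongr
  rw [integral_add i4' i5, integral_add i3' i4, integral_add i2' i3, integral_add i1' iL,
    integral_const_mul, eq1, e3, e4] at h0
  have hcp : 0 ≤ 1 + 1 / (R - 1) := by positivity
  have h7 := mul_le_mul_of_nonneg_left hD hcp
  have h8 : (1 : ℝ) * (1 / 2) ^ d ≤
      ((1 + 1 / (R - 1)) * ε + N / K + 4 * (200 / 201 : ℝ) ^ d) * (1 / 2) ^ d := by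
    linarith
  exact le_of_mul_le_mul_right h8 hp

/-! ## Duality: the worst-case error is the discrepancy -/

lemma I_left {d : ℕ} {x : Fin d → ℝ} (hx : ∀ j, x j ∈ Ioo (0 : ℝ) 1) :
    ∫ y, ind y x ∂(cub d) = P x := by
  unfold ind P
  rw [int_prod_fun (fun j y => i1 y (x j))]
  refine Finset.prod_congr rfl fun j _ => ?_
  have h1 : (fun y : ℝ => i1 y (x j)) = Set.indicator (Iio (x j)) (fun _ => (1 : ℝ)) := by
    funext y
    simp [i1, Set.indicator_apply]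
  rw [h1, setIntegral_indicator measurableSet_Iio]
  have h2 : Ioo (0 : ℝ) 1 ∩ Iio (x j) = Ioo 0 (x j) := by
    ext y
    simp only [mem_inter_iff, mem_Ioo, mem_Iio]
    constructor
    · rintro ⟨⟨h, _⟩, h'⟩; exact ⟨h, h'⟩
    · rintro ⟨h, h'⟩; exact ⟨⟨h, h'.trans (hx j).2⟩, h'⟩
  rw [h2]
  simp [(hx j).1.le]

lemma f_eq {d : ℕ} (g : (Fin d → ℝ) → ℝ) {y : Fin d → ℝ} (hy : y ∈ Icc (0 : Fin d → ℝ) 1) :
    ∫ x in Set.univ.pi (fun j => Ioc (y j) 1), g x = ∫ x, ind y x * g x ∂(cub d) := by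
  classical
  rw [← vol_eq]
  have h1 : (fun x => ind y x * g x) =
      Set.indicator (Set.univ.pi (fun j => Ioi (y j))) g := by
    funext x
    rw [Set.indicator_apply]
    split_ifs with h
    · rw [ind_one fun j => h j (mem_univ j), one_mul]
    · rw [ind_zero, zero_mul]
      intro h'
      exact h fun j _ => h' j
  rw [h1, setIntegral_indicator (MeasurableSet.univ_pi fun _ => measurableSet_Ioi)]
  congr 2
  ext x
  simp only [mem_inter_iff, mem_Icc, Set.mem_pi, mem_univ, mem_Ioi, mem_Ioc, true_implies, Pi.le_def,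
    Pi.zero_apply, Pi.one_apply]
  constructor
  · intro h
    exact ⟨⟨fun j => (hy.1 j).trans (h j).1.le, fun j => (h j).2⟩, fun j => (h j).1⟩
  · rintro ⟨⟨_, h1⟩, h2⟩ j
    exact ⟨h2 j, h1 j⟩

lemma meas_ind2 (d : ℕ) : Measurable (fun q : (Fin d → ℝ) × (Fin d → ℝ) => ind q.1 q.2) := by
  unfold ind i1
  refine Finset.measurable_prod _ fun j _ => ?_
  exact Measurable.ite (measurableSet_lt ((measurable_pi_apply j).comp measurable_fst)
    ((measurable_pi_apply j).comp measurable_snd)) measurable_const measurable_const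

lemma ind_le_one {d : ℕ} (t x : Fin d → ℝ) : ind t x ≤ 1 :=
  Finset.prod_le_one (fun _ _ => i1_nonneg _ _) fun _ _ => i1_le _ _

lemma int_f {d : ℕ} {g : (Fin d → ℝ) → ℝ} (hg : Measurable g) (hg1 : ∀ x, |g x| ≤ 1) :
    ∫ y, ∫ x, ind y x * g x ∂(cub d) ∂(cub d) = ∫ x, P x * g x ∂(cub d) := by
  have hint : Integrable (Function.uncurry fun (y x : Fin d → ℝ) => ind y x * g x)
      ((cub d).prod (cub d)) := by
    refine Integrable.of_bound (((meas_ind2 d).mul (hg.comp measurable_snd)).aestronglyMeasurable)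
      1 (Eventually.of_forall fun q => ?_)
    simp only [Function.uncurry]
    rw [Real.norm_eq_abs, abs_mul, abs_of_nonneg (ind_nonneg _ _)]
    exact mul_le_one₀ (ind_le_one _ _) (abs_nonneg _) (hg1 _)
  rw [integral_integral_swap hint]
  refine integral_congr_ae ((ae_mem d).mono fun x hx => ?_)
  simp only
  rw [integral_mul_const, I_left hx]

lemma int_bdd {d : ℕ} {f g : (Fin d → ℝ) → ℝ} (hf : Integrable f (cub d)) (hg : Measurable g)
    (hg1 : ∀ x, |g x| ≤ 1) : Integrable (fun x => f x * g x) (cub d) := by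
  refine hf.mul_bdd (c := 1) hg.aestronglyMeasurable (Eventually.of_forall fun x => ?_)
  rw [Real.norm_eq_abs]; exact hg1 x

/-- The error of the formula at `f`. -/
lemma err_eq {d N : ℕ} {t : Fin N → Fin d → ℝ} (a : Fin N → ℝ)
    (ht : ∀ k j, t k j ∈ Ico (0 : ℝ) 1) {g f : (Fin d → ℝ) → ℝ} (hg : Measurable g)
    (hg1 : ∀ x, |g x| ≤ 1)
    (hf : ∀ t ∈ Icc (0 : Fin d → ℝ) 1, f t = ∫ x in Set.univ.pi (fun j => Ioc (t j) 1), g x) :
    (∫ x in Icc (0 : Fin d → ℝ) 1, f x) - ∑ k, a k * f (t k) =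
      ∫ x, (P x - H t a x) * g x ∂(cub d) := by
  have h1 : ∫ x in Icc (0 : Fin d → ℝ) 1, f x = ∫ x, P x * g x ∂(cub d) := by
    rw [← int_f hg hg1, ← vol_eq]
    refine setIntegral_congr_fun measurableSet_Icc fun y hy => ?_
    rw [hf y hy, f_eq g hy, ← vol_eq]
  have htk : ∀ k, t k ∈ Icc (0 : Fin d → ℝ) 1 := fun k =>
    ⟨fun j => (ht k j).1, fun j => (ht k j).2.le⟩
  have h2 : ∑ k, a k * f (t k) = ∫ x, H t a x * g x ∂(cub d) := by
    have e : ∀ x, H t a x * g x = ∑ k, a k * (ind (t k) x * g x) := fun x => by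
      unfold H
      rw [Finset.sum_mul]
      exact Finset.sum_congr rfl fun k _ => by ring
    simp_rw [e]
    rw [integral_finsetSum _ fun k _ => (int_bdd (int_ind (t k)) hg hg1).const_mul _]
    refine Finset.sum_congr rfl fun k _ => ?_
    rw [integral_const_mul, hf _ (htk k), f_eq g (htk k)]
  rw [h1, h2, ← integral_sub (int_bdd (int_P d) hg hg1) (int_bdd (int_H t a) hg hg1)]
  refine integral_congr_ae (Eventually.of_forall fun x => ?_)
  ring

lemma disc_eq {d N : ℕ} {t : Fin N → Fin d → ℝ} (a : Fin N → ℝ)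
    (ht : ∀ k j, t k j ∈ Ico (0 : ℝ) 1) :
    L1Disc t a = ∫ x, |H t a x - P x| ∂(cub d) := by
  unfold L1Disc
  rw [← vol_eq]
  refine setIntegral_congr_fun measurableSet_Icc fun x _ => ?_
  simp only [H, P]
  congr 3
  funext k
  congr 1
  rw [Set.indicator_apply]
  split_ifs with h
  · exact (ind_one fun j => (h j).2).symm
  · refine (ind_zero ?_).symm
    intro h'
    exact h fun j => ⟨(ht k j).1, h' j⟩

lemma wce_eq {d N : ℕ} {t : Fin N → Fin d → ℝ} (a : Fin N → ℝ)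
    (ht : ∀ k j, t k j ∈ Ico (0 : ℝ) 1) : worstCaseError t a = L1Disc t a := by
  rw [disc_eq a ht]
  have iD : Integrable (fun x => |H t a x - P x|) (cub d) := ((int_H t a).sub (int_P d)).abs
  have hub : ∀ f : unitBall d, |(∫ x in Icc (0 : Fin d → ℝ) 1, f.1 x) - ∑ k, a k * f.1 (t k)| ≤
      ∫ x, |H t a x - P x| ∂(cub d) := by
    rintro ⟨f, g, hg, hg1, hf⟩
    rw [err_eq a ht hg hg1 hf]
    refine (abs_integral_le_integral_abs).trans ?_
    refine integral_mono_of_nonneg (Eventually.of_forall fun x => abs_nonneg _) iD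
      (Eventually.of_forall fun x => ?_)
    simp only
    rw [abs_mul, abs_sub_comm]
    exact mul_le_of_le_one_right (abs_nonneg _) (hg1 x)
  classical
  set g : (Fin d → ℝ) → ℝ := fun x => if H t a x ≤ P x then 1 else -1 with hgdef
  have hHm : Measurable (H t a) := by
    unfold H
    exact Finset.measurable_sum _ fun k _ => (meas_ind (t k)).const_mul _
  have hPm : Measurable (P (d := d)) := by
    unfold P
    exact Finset.measurable_prod _ fun i _ => measurable_pi_apply i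
  have hg : Measurable g :=
    Measurable.ite (measurableSet_le hHm hPm) measurable_const measurable_const
  have hg1 : ∀ x, |g x| ≤ 1 := fun x => by
    simp only [hgdef]
    split_ifs <;> simp
  set f : (Fin d → ℝ) → ℝ := fun t => ∫ x in Set.univ.pi (fun j => Ioc (t j) 1), g x with hfdef
  have hfm : f ∈ unitBall d := ⟨g, hg, hg1, fun _ _ => rfl⟩
  have hne : Nonempty (unitBall d) := ⟨⟨f, hfm⟩⟩
  refine le_antisymm (ciSup_le hub) ?_
  have hval : |(∫ x in Icc (0 : Fin d → ℝ) 1, f x) - ∑ k, a k * f (t k)| =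
      ∫ x, |H t a x - P x| ∂(cub d) := by
    rw [err_eq a ht hg hg1 fun _ _ => rfl]
    have e : ∀ x, (P x - H t a x) * g x = |H t a x - P x| := fun x => by
      simp only [hgdef]
      split_ifs with h
      · rw [abs_of_nonpos (by linarith)]; ring
      · rw [abs_of_pos (by linarith [not_le.1 h])]; ring
    simp_rw [e]
    exact abs_of_nonneg (integral_nonneg fun x => abs_nonneg _)
  rw [← hval]
  unfold worstCaseError
  exact le_ciSup (f := fun f : unitBall d =>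
    |(∫ x in Icc (0 : Fin d → ℝ) 1, f.1 x) - ∑ k, a k * f.1 (t k)|)
    ⟨_, by rintro _ ⟨f, rfl⟩; exact hub f⟩ ⟨f, hfm⟩

/-! ## The curse -/

lemma lower (ε : ℝ) (hε : ε < 1) :
    ∀ᶠ d : ℕ in atTop, ∀ N : ℕ, ePlus N d ≤ ε * (1 / 2) ^ d → (51 / 50 : ℝ) ^ d ≤ N := by
  -- the constants
  obtain ⟨e', he1, he2⟩ : ∃ e' : ℝ, max ε 0 < e' ∧ e' < 1 := exists_between (max_lt hε one_pos)
  have hε' : ε < e' := (le_max_left _ _).trans_lt he1
  have he0 : 0 < e' := (le_max_right _ _).trans_lt he1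
  -- `R` with `e' / (R - 1) = (1 - e') / 4`, `M` with `1 / M = (1 - e') / 4`
  set r : ℝ := (1 - e') / 4 with hr
  have hr0 : 0 < r := by rw [hr]; linarith
  set R : ℝ := 1 + 1 / r with hR
  have hR1 : 1 < R := by rw [hR]; linarith [one_div_pos.2 hr0]
  have h1 := tendsto_pow_atTop_atTop_of_one_lt (r := (((175 / 201 : ℝ) ^ 8) /
    (51 / 50 * (2 * (201 / 200 * 16 / 17) ^ 8 * (201 / 200 * 128 / 153) ^ 8)))) (by norm_num)
  have h2 := tendsto_pow_atTop_nhds_zero_of_lt_one (r := (200 / 201 : ℝ)) (by norm_num)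
    (by norm_num)
  filter_upwards [h1.eventually_gt_atTop (R / r), h2.eventually_lt_const
    (show (0 : ℝ) < r / 4 by positivity)] with d hd1 hd2 N hN
  by_contra hlt
  push Not at hlt
  have hp : (0 : ℝ) < (1 / 2) ^ d := by positivity
  have hlt' : ePlus N d < e' * (1 / 2) ^ d :=
    hN.trans_lt (mul_lt_mul_of_pos_right hε' hp)
  have hne : Nonempty {A : (Fin N → Fin d → ℝ) × (Fin N → ℝ) //
      (∀ k j, A.1 k j ∈ Ico (0 : ℝ) 1) ∧ ∀ k, 0 ≤ A.2 k} :=
    ⟨⟨(fun _ _ => 0, fun _ => 0), fun _ _ => by simp, fun _ => le_rfl⟩⟩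
  obtain ⟨⟨⟨t, a⟩, ht, ha⟩, hA⟩ := exists_lt_of_ciInf_lt hlt'
  simp only at ht ha hA
  rw [wce_eq a ht, disc_eq a ht] at hA
  have hKp : (0 : ℝ) < (51 / 50) ^ d / r := by positivity
  have hC : R * ((51 / 50 : ℝ) ^ d / r) *
      (2 * (201 / 200 * 16 / 17) ^ 8 * (201 / 200 * 128 / 153) ^ 8) ^ d <
      ((175 / 201 : ℝ) ^ 8) ^ d := by
    rw [div_pow, lt_div_iff₀ (by positivity), mul_pow] at hd1
    calc R * ((51 / 50 : ℝ) ^ d / r) *
        (2 * (201 / 200 * 16 / 17) ^ 8 * (201 / 200 * 128 / 153) ^ 8) ^ d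
        = R / r * ((51 / 50 : ℝ) ^ d *
          (2 * (201 / 200 * 16 / 17) ^ 8 * (201 / 200 * 128 / 153) ^ 8) ^ d) := by ring
      _ < _ := hd1
  have hm := main_est ht ha hR1 hKp he2.le hC hA.le
  have h3 : 1 / (R - 1) = r := by rw [hR]; simp
  rw [h3] at hm
  have h4 : (N : ℝ) / ((51 / 50) ^ d / r) ≤ r := by
    rw [div_le_iff₀ hKp]
    have : r * ((51 / 50 : ℝ) ^ d / r) = (51 / 50) ^ d := by field_simp
    rw [this]; exact hlt.le
  have h5 : (1 + r) * e' ≤ e' + r := by nlinarith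
  have : (1 : ℝ) < 1 := by
    calc (1 : ℝ) ≤ (1 + r) * e' + N / ((51 / 50) ^ d / r) + 4 * (200 / 201 : ℝ) ^ d := hm
      _ < (e' + r) + r + r := by linarith
      _ ≤ 1 := by rw [hr]; linarith
  exact lt_irrefl _ this

lemma le_NPlus {C ε : ℝ} {d : ℕ} (h : ∀ N : ℕ, ePlus N d ≤ ε * (1 / 2) ^ d → C ≤ N) :
    ENNReal.ofReal C ≤ (NPlus ε d : ENNReal) := by
  unfold NPlus
  by_cases hne : ∃ N : ℕ, ePlus N d ≤ ε * (1 / 2) ^ d
  · obtain ⟨N₀, hN₀⟩ := hne
    have h1 : (⌈C⌉₊ : ℕ∞) ≤ ⨅ (N : ℕ) (_ : ePlus N d ≤ ε * (1 / 2) ^ d), (N : ℕ∞) := by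
      refine le_iInf₂ fun N hN => ?_
      exact_mod_cast Nat.ceil_le.2 (h N hN)
    have h2 : ENNReal.ofReal C ≤ ((⌈C⌉₊ : ℕ∞) : ENNReal) := by
      rw [ENat.toENNReal_coe]
      refine ENNReal.ofReal_le_of_le_toReal ?_
      rw [ENNReal.toReal_natCast]
      exact Nat.le_ceil C
    exact h2.trans (ENat.toENNReal_le.2 h1)
  · have h3 : (⨅ (N : ℕ) (_ : ePlus N d ≤ ε * (1 / 2) ^ d), (N : ℕ∞)) = ⊤ := by
      refine iInf₂_eq_top.2 fun N hN => ?_
      exact absurd ⟨N, hN⟩ hne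
    rw [h3]
    simp

/-- **The curse of dimensionality** (Q1, positive answer): for every `ε < 1` one has
`N⁺(ε,d) ≥ (51/50)^d` for all large `d`. Moreover the worst-case error of a formula with nodes in
`[0,1)^d` is its generalized `L_1`-discrepancy. -/
theorem result :
    (∀ ε : ℝ, ε < 1 → ∀ᶠ d : ℕ in atTop,
      ENNReal.ofReal ((51 / 50) ^ d) ≤ (NPlus ε d : ENNReal)) ∧
    ∀ (d N : ℕ) (t : Fin N → Fin d → ℝ) (a : Fin N → ℝ), (∀ k j, t k j ∈ Ico (0 : ℝ) 1) →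
      worstCaseError t a = L1Disc t a :=
  ⟨fun ε hε => (lower ε hε).mono fun _ hd => le_NPlus hd, fun _ _ _ a ht => wce_eq a ht⟩

end Pool.Agent.Results.MP_2335a4_an.CurseL1
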